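import Pool.Agent.Y422.RW.Fin

set_option autoImplicit false

/-!
# Exact asymptotics of the diagonal Ramsey numbers of colourings of bounded rank-width

A two-colouring of the edges of the complete graph on a finite set `V` is a graph `G` on `V`; a
one-coloured `K_k` is a clique of size `k` of `G` or of its complement.  `RankWidthLE G w` says that
the rank-width of `G` (over the field with two elements) is at most `w`.  `largest w k` is the largest
number of vertices of a colouring of rank-width at most `w` without one-coloured `K_k` (the diagonal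
Ramsey number of the class, minus one).

For every integer `i ≥ 1`: if `k ^ (1 / (i + 1)) ≪ w ≪ k ^ (1 / i)` then
`log₂ (largest w k) / w → i`.  So the Ramsey numbers of this class grow like `2 ^ (i w)` with integer
`i`, at all scales `w ≥ k ^ ε` except for short windows around `k ^ (1 / i)`.

In particular (`i = 1`): a graph on `n` vertices whose homogeneous sets have size `O (log n)` has
rank-width at least `(1 - o(1)) log₂ n`, and this is sharp: there are graphs on `2 ^ m` vertices of
rank-width `(1 + ε) m` with homogeneous sets of size at most `(1 / (2 ε) + o(1)) m` only, and the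
bound `√2 ^ k` of Erdős for the Ramsey number is attained, up to a constant factor, by graphs of
rank-width at most `k` (random graphs have rank-width linear in the number of vertices).

Upper bound: a cut of rank `w` has at most `2 ^ w` types of vertices, and one descends in the tree of
the decomposition; iteration over `i + 1` scales with exponential weights.  Lower bound: vertices are
random pairs `(x_a, y_a)` of vectors of length `w`, and for `a < b` the pair `a b` is an edge if
`⟨y_a, x_b⟩ = 1`; all cuts between an initial segment and the rest have rank at most `w`, and the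
number of homogeneous sequences is at most `2 ^ (k (w + 1) + w (w + 1) / 2)` (the span of the vectors
chosen so far grows at most `w` times).  Then lexicographic powers.
-/

namespace Pool.Agent.Results.MP_28724c_co.RankWidthAsymptotics

open Filter Topology Pool.Agent.Y422.RW

/-- The largest number of vertices of a graph of rank-width at most `w` without clique and
independent set of size `k`. -/
noncomputable def largest (w k : ℕ) : ℕ :=
  sSup {n : ℕ | ∃ (V : Type) (_ : Fintype V) (G : SimpleGraph V), Fintype.card V = n ∧
    RankWidthLE G w ∧ G.CliqueFree k ∧ Gᶜ.CliqueFree k}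

/-- **Main result.** -/
theorem result :
    -- (1) the two-sided estimate
    (∀ i : ℕ, 1 ≤ i → ∃ C : ℝ, 0 < C ∧ ∀ w k : ℕ, 1 ≤ w → 1 ≤ k →
      i * (w - (w : ℝ) ^ 2 / (2 * (k : ℝ) ^ ((1 : ℝ) / (i : ℝ))) - 5) ≤
        Real.logb 2 (largest w k) ∧
      Real.logb 2 (largest w k) ≤ i * (w + 1) + C * (k : ℝ) ^ ((1 : ℝ) / ((i + 1 : ℕ) : ℝ))) ∧
    -- (2) exact asymptotics between two neighbouring windows
    (∀ i : ℕ, 1 ≤ i → ∀ w : ℕ → ℕ,
      Tendsto (fun k : ℕ => (w k : ℝ) / (k : ℝ) ^ ((1 : ℝ) / ((i + 1 : ℕ) : ℝ))) atTop atTop →
      Tendsto (fun k : ℕ => (w k : ℝ) / (k : ℝ) ^ ((1 : ℝ) / (i : ℝ))) atTop (𝓝 0) →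
      Tendsto (fun k : ℕ => Real.logb 2 (largest (w k) k) / w k) atTop (𝓝 i)) ∧
    -- (3) the order of magnitude at all scales `k ^ ε ≤ w ≤ k`
    (∀ ε : ℝ, 0 < ε → ∃ c C : ℝ, 0 < c ∧ 0 < C ∧ ∀ w k : ℕ, 3 ≤ k →
      (k : ℝ) ^ ε ≤ w → w ≤ k →
      c * w ≤ Real.logb 2 (largest w k) ∧ Real.logb 2 (largest w k) ≤ C * w) :=
  ⟨rw_uniform, rw_limit, rw_order⟩

end Pool.Agent.Results.MP_28724c_co.RankWidthAsymptotics
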