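import Pool.Agent.Y806.SP.F
import Pool.Agent.Y806.SP.I

/-!
# Diagonal Ramsey colourings given by sparse polynomials modulo a prime

The vertices are the `n = 2 ^ m` bit strings of length `m`, written as subsets of `Fin m` (the set of
the positions of the ones). A polynomial modulo `p` in the `2 m` bits of two strings `X`, `Y` is
given by its coefficients `c A B` at the monomials `∏_{i ∈ A} X_i * ∏_{i ∈ B} Y_i`.

1. For every `A`, colourings which are an arbitrary function of `r` polynomials modulo `p`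
   (`p r ≤ m ^ (1/4)`) with together at most `m ^ (log₂ m / (25 (A + 5)))` monomials, of arbitrary
   degrees, have homogeneous sets of size `m ^ A = (log₂ n) ^ A`.
2. For every prime `p` there is one symmetric polynomial with at most
   `(2 m + 1) ^ (2 log₂ m + 5)` monomials whose two-colouring has no homogeneous set of size
   `4 m = 4 log₂ n`.
3. For `p = 2` the same with `2 m = 2 log₂ n`, which is the bound of Erdős `n = 2 ^ (k / 2)`.

So the number of monomials needed for colourings with homogeneous sets of size only `O(log n)` is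
`m ^ Θ(log m) = 2 ^ Θ((log log n) ^ 2)`, for every prime modulus.
-/

set_option autoImplicit false

namespace Pool.Agent.Results.MP_28724c_co.SparsePolynomials

open Finset

/-- The value at the pair of bit strings `X`, `Y` of the polynomial with the coefficients `c`. -/
def value {m p : ℕ} (c : Finset (Fin m) → Finset (Fin m) → ZMod p) (X Y : Finset (Fin m)) :
    ZMod p :=
  ∑ q : Finset (Fin m) × Finset (Fin m),
    c q.1 q.2 * ((∏ i ∈ q.1, if i ∈ X then 1 else 0) * ∏ i ∈ q.2, if i ∈ Y then 1 else 0)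

/-- The number of monomials. -/
def monomials {m p : ℕ} (c : Finset (Fin m) → Finset (Fin m) → ZMod p) : ℕ :=
  (univ.filter fun q : Finset (Fin m) × Finset (Fin m) => c q.1 q.2 ≠ 0).card

/-- The colour `χ X Y` of two different bit strings is a function `Φ` of the values of the `r`
polynomials `c j`, in one of the two orders of the strings. -/
def GivenBy {m p r : ℕ} {C : Type} (χ : Finset (Fin m) → Finset (Fin m) → C)
    (c : Fin r → Finset (Fin m) → Finset (Fin m) → ZMod p) : Prop :=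
  ∃ Φ : (Fin r → ZMod p) → C, ∀ X Y, X ≠ Y →
    χ X Y = Φ (fun j => value (c j) X Y) ∨ χ X Y = Φ (fun j => value (c j) Y X)

/-- All pairs of different members of `H` have the same colour. -/
def Homogeneous {m : ℕ} {C : Type} (χ : Finset (Fin m) → Finset (Fin m) → C)
    (H : Finset (Finset (Fin m))) : Prop :=
  ∃ a : C, ∀ X ∈ H, ∀ Y ∈ H, X ≠ Y → χ X Y = a

theorem value_eq {m p : ℕ} (c : Finset (Fin m) → Finset (Fin m) → ZMod p)
    (X Y : Finset (Fin m)) : value c X Y = Pool.Agent.Y806.SP.pv c X Y := by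
  rw [Pool.Agent.Y806.SP.pv_eq]
  unfold value
  refine sum_congr rfl fun q _ => ?_
  have h : ∀ (A Z : Finset (Fin m)), (∏ i ∈ A, if i ∈ Z then (1 : ZMod p) else 0) =
      if A ⊆ Z then 1 else 0 := by
    intro A Z
    by_cases hAZ : A ⊆ Z
    · rw [if_pos hAZ]
      exact prod_eq_one fun i hi => if_pos (hAZ hi)
    · rw [if_neg hAZ]
      obtain ⟨i, hi, hiZ⟩ := not_subset.1 hAZ
      exact prod_eq_zero hi (if_neg hiZ)
  rw [h, h]
  by_cases h1 : q.1 ⊆ X <;> by_cases h2 : q.2 ⊆ Y <;> simp [h1, h2]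

theorem homogeneous_of {m p r : ℕ} {C : Type} (χ : Finset (Fin m) → Finset (Fin m) → C)
    (c : Fin r → Finset (Fin m) → Finset (Fin m) → ZMod p) (hχ : GivenBy χ c)
    (H : Finset (Finset (Fin m)))
    (h : ∀ k, ∀ X ∈ H, ∀ Y ∈ H, Pool.Agent.Y806.SP.pv (c k) X Y =
      Pool.Agent.Y806.SP.pv (c k) ∅ ∅) : Homogeneous χ H := by
  obtain ⟨Φ, hΦ⟩ := hχ
  refine ⟨Φ fun j => value (c j) ∅ ∅, fun X hX Y hY hXY => ?_⟩
  have h1 : (fun j => value (c j) X Y) = fun j => value (c j) ∅ ∅ := by
    funext j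
    rw [value_eq, value_eq]
    exact h j X hX Y hY
  have h2 : (fun j => value (c j) Y X) = fun j => value (c j) ∅ ∅ := by
    funext j
    rw [value_eq, value_eq]
    exact h j Y hY X hX
  rcases hΦ X Y hXY with h3 | h3
  · rw [h3, h1]
  · rw [h3, h2]

/-- **Ramsey colourings given by polynomials modulo a prime.** -/
theorem result :
    -- few monomials: homogeneous sets larger than a given power of `log₂ n = m`
    (∀ A : ℕ, ∃ m₀ : ℕ, ∀ m ≥ m₀, ∀ (p r : ℕ), p.Prime → (p : ℝ) * r ≤ (m : ℝ) ^ (1 / 4 : ℝ) →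
      ∀ c : Fin r → Finset (Fin m) → Finset (Fin m) → ZMod p,
      ((∑ k, monomials (c k) : ℕ) : ℝ) ≤ (m : ℝ) ^ (Real.logb 2 m / (25 * (A + 5))) →
      ∀ (C : Type) (χ : Finset (Fin m) → Finset (Fin m) → C), GivenBy χ c →
        ∃ H : Finset (Finset (Fin m)), m ^ A ≤ H.card ∧ Homogeneous χ H) ∧
    -- every prime: no homogeneous set of size `4 m`
    (∀ (m p : ℕ), 1 ≤ m → p.Prime → ∃ c : Finset (Fin m) → Finset (Fin m) → ZMod p,
      (∀ A B, c A B = c B A) ∧ monomials c ≤ (2 * m + 1) ^ (2 * Nat.log 2 m + 5) ∧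
      ∀ H : Finset (Finset (Fin m)), 4 * m ≤ H.card →
        ¬ Homogeneous (fun X Y => decide (2 * (value c X Y).val < p)) H) ∧
    -- the prime two: no homogeneous set of size `2 m`
    (∀ m : ℕ, 2 ≤ m → ∃ c : Finset (Fin m) → Finset (Fin m) → ZMod 2,
      (∀ A B, c A B = c B A) ∧ monomials c ≤ (2 * m + 1) ^ (2 * Nat.log 2 m + 3) ∧
      ∀ H : Finset (Finset (Fin m)), 2 * m ≤ H.card → ¬ Homogeneous (value c) H) := by
  refine ⟨?_, ?_, ?_⟩
  · intro A
    rcases Nat.eq_zero_or_pos A with hA | hA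
    · subst hA
      refine ⟨0, fun m _ p r _ _ c _ C χ _ => ⟨{∅}, by simp, χ ∅ ∅, ?_⟩⟩
      intro X hX Y hY hXY
      rw [mem_singleton] at hX hY
      exact absurd (hX.trans hY.symm) hXY
    · obtain ⟨m₀, h⟩ := Pool.Agent.Y806.SP.sparse_asymp A hA
      refine ⟨m₀, fun m hm p r hp hpr c hc C χ hχ => ?_⟩
      obtain ⟨H, h1, h2⟩ := h m hm p r hp hpr c hc
      exact ⟨H, h1, homogeneous_of χ c hχ H h2⟩
  · intro m p hm hp
    obtain ⟨c, h1, h2, h3⟩ := Pool.Agent.Y806.SP.ramsey_poly m p hm hp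
    refine ⟨c, h1, Pool.Agent.Y806.SP.monos_le c h2, fun H hH => ?_⟩
    rintro ⟨a, ha⟩
    simp only [value_eq] at ha
    cases a with
    | true =>
      exact (h3 H hH).1 fun X hX Y hY hXY => of_decide_eq_true (ha X hX Y hY hXY)
    | false =>
      exact (h3 H hH).2 fun X hX Y hY hXY => of_decide_eq_false (ha X hX Y hY hXY)
  · intro m hm
    obtain ⟨c, h1, h2, h3⟩ := Pool.Agent.Y806.SP.ramsey_poly_two m hm
    refine ⟨c, h1, Pool.Agent.Y806.SP.monos_le c h2, fun H hH => ?_⟩
    rintro ⟨a, ha⟩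
    simp only [value_eq] at ha
    have key : ∀ b : ZMod 2, b = 0 ∨ b = 1 := by decide
    rcases key a with rfl | rfl
    · exact (h3 H hH).1 ha
    · exact (h3 H hH).2 ha

end Pool.Agent.Results.MP_28724c_co.SparsePolynomials
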