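import Pool.Agent.Y422.TW.Asy

set_option autoImplicit false

/-!
# Exact asymptotics of the diagonal Ramsey numbers of colourings of bounded twin-width

A two-colouring of the edges of the complete graph on a finite set `V` is a graph `G` on `V`; a
one-coloured `K_k` is a clique of size `k` of `G` or of its complement.  `TwinWidthLE G t` says that
the twin-width of `G` is at most `t`.  `largest t k` is the largest number of vertices of a colouring
of twin-width at most `t` without one-coloured `K_k` (the diagonal Ramsey number of the class, minus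
one).

For every integer `i ≥ 1`: if `log t / k ^ (1 / (i + 1)) → ∞` and `(2 ⌊log₂ (t + 2)⌋ + 1) ^ i < k`
then `log (largest t k) / log t → i`.  So the limit of `log R / log t` exists and equals
`⌊log k / log log t⌋` (an integer) at all scales `log t ≥ k ^ ε` except for the windows
`k ^ (1 / i) / 2 < log₂ t < ω k ^ (1 / i)`; inside the windows the order of magnitude is `log t`.

Upper bound: `n ≤ (2 (t + 1)) ^ i * exp (C_i k ^ (1 / (i + 1)))`, from the first moment at which a part
of the contraction sequence meets a set `U` in at least `s` vertices, iterated over `i + 1` scales with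
exponential weights.  Lower bound: lexicographic powers of random graphs with `t + 2` vertices.
-/

namespace Pool.Agent.Results.MP_28724c_co.TwinWidthAsymptotics

open Filter Topology Pool.Agent.Y422.TW

/-- The largest number of vertices of a graph of twin-width at most `t` without clique and
independent set of size `k`. -/
noncomputable def largest (t k : ℕ) : ℕ :=
  sSup {n : ℕ | ∃ (V : Type) (_ : Fintype V) (G : SimpleGraph V), Fintype.card V = n ∧
    TwinWidthLE G t ∧ G.CliqueFree k ∧ Gᶜ.CliqueFree k}

/-- **Main result.** -/
theorem result :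
    -- (1) exact asymptotics at every scale outside the windows
    (∀ i : ℕ, 1 ≤ i → ∀ t : ℕ → ℕ,
      Tendsto (fun k : ℕ => Real.log (t k) / (k : ℝ) ^ ((1 : ℝ) / ((i + 1 : ℕ) : ℝ))) atTop atTop →
      (∀ᶠ k : ℕ in atTop, (2 * Nat.log 2 (t k + 2) + 1) ^ i < k) →
      Tendsto (fun k : ℕ => Real.log (largest (t k) k) / Real.log (t k)) atTop (𝓝 i)) ∧
    -- (2) the order of magnitude at all scales `exp (k ^ ε) ≤ t ≤ exp k`
    (∀ ε : ℝ, 0 < ε → ∃ c C : ℝ, 0 < c ∧ 0 < C ∧ ∀ t k : ℕ, 4 ≤ k →
      (k : ℝ) ^ ε ≤ Real.log t → Real.log t ≤ k →
      c * Real.log t ≤ Real.log (largest t k) ∧ Real.log (largest t k) ≤ C * Real.log t) :=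
  ⟨tw_limit, tw_order⟩

end Pool.Agent.Results.MP_28724c_co.TwinWidthAsymptotics
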