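import Pool.Agent.Y422.RC.VCFin

set_option autoImplicit false

/-!
# Asymptotics of the diagonal Ramsey numbers of colourings of bounded VC-dimension

A colouring of the edges of the complete graph on `n` vertices is a graph `G` on `Fin n` (red edges)
together with its complement (blue edges).  `RamseyVC d k` is the diagonal Ramsey number for the
colourings whose red neighbourhoods have VC-dimension at most `d`: the least `n` such that every such
colouring of `K_n` contains a one-coloured `K_k`.

The theorem: `log RamseyVC d k = (1 + o(1)) d log (k / d)` uniformly for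
`√(k / log k) ≪ d ≪ k`, and `log RamseyVC d k` has order of magnitude `d log (k / d)` for
`k ^ ε ≤ d ≤ k / C`.

Upper bound: inside a set `A` of vertices the packing lemma of Haussler gives a cluster of
`|A| / (88 h) ^ d` vertices whose neighbourhoods differ in at most `|A| / (4 h)` points; a
one-coloured set of `h` vertices of the cluster sends only one colour to at least `|A| / 8` vertices
of `A`.  So one step produces `h` vertices for a constant factor, and the packing number is paid only
once, at the end: `n < 8 ^ (2 T) (h (88 h) ^ d C(h + k, h))` for `k ≤ T h`.  For `d ≥ k ^ ε` the step is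
iterated over several scales.  Lower bound: a random graph of density `1 / q` with `q ^ (a - 2)`
vertices has no complete bipartite subgraph `K_{a, 2 ^ c}` with `(a - 1) ^ 2 ≤ 2 ^ (c + 1)`, hence
VC-dimension at most `a + c`.
-/

namespace Pool.Agent.Results.MP_28724c_co.VCDimensionAsymptotics

open Filter Topology

/-- `Shatters G S`: for every `T ⊆ S` there is a vertex `v` whose neighbours in `S` are exactly
the elements of `T`. -/
def Shatters {n : ℕ} (G : SimpleGraph (Fin n)) (S : Finset (Fin n)) : Prop :=
  ∀ T ⊆ S, ∃ v, ∀ x ∈ S, (G.Adj v x ↔ x ∈ T)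

/-- The VC-dimension of the family of neighbourhoods of the vertices of `G` is at most `d`. -/
def VCdimLe {n : ℕ} (G : SimpleGraph (Fin n)) (d : ℕ) : Prop :=
  ∀ S : Finset (Fin n), Shatters G S → S.card ≤ d

/-- The colouring of the edges of `K_n` with colour classes `G` and `Gᶜ` has no one-coloured
`K_k`. -/
def NoMono {n : ℕ} (G : SimpleGraph (Fin n)) (k : ℕ) : Prop :=
  G.CliqueFree k ∧ Gᶜ.CliqueFree k

/-- The least `n` such that every colouring of `K_n` of VC-dimension at most `d` contains a
one-coloured `K_k`. -/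
noncomputable def RamseyVC (d k : ℕ) : ℕ :=
  sInf {n : ℕ | ∀ G : SimpleGraph (Fin n), VCdimLe G d → ¬ NoMono G k}

theorem ramseyVC_eq (d k : ℕ) : RamseyVC d k = Pool.Agent.Y422.RC.RVC d k := by
  unfold RamseyVC Pool.Agent.Y422.RC.RVC
  congr 1
  ext n
  simp only [Set.mem_setOf_eq, Pool.Agent.Y422.RC.Good, not_exists, not_and]
  constructor
  · intro h G h1 h2 h3
    exact h G h1 ⟨h2, h3⟩
  · intro h G h1 h2
    exact h G h1 h2.1 h2.2

/-- **Main result.** -/
theorem result :
    -- (1) uniform asymptotics for `C √(k / log k) ≤ d ≤ k / C`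
    (∀ ε : ℝ, 0 < ε → ∃ C : ℝ, 1 ≤ C ∧ ∀ d k : ℕ, 2 ≤ k →
      C * Real.sqrt (k / Real.log k) ≤ d → C * d ≤ k →
      |Real.log (RamseyVC d k) - d * Real.log (k / d)| ≤ ε * (d * Real.log (k / d))) ∧
    -- (2) the limit form
    (∀ d : ℕ → ℕ,
      Tendsto (fun k : ℕ => (d k : ℝ) / Real.sqrt (k / Real.log k)) atTop atTop →
      Tendsto (fun k : ℕ => (d k : ℝ) / k) atTop (𝓝 0) →
      Tendsto (fun k : ℕ => Real.log (RamseyVC (d k) k) / (d k * Real.log (k / d k))) atTop
        (𝓝 1)) ∧
    -- (3) the order of magnitude for `k ^ ε ≤ d ≤ k / C`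
    (∀ ε : ℝ, 0 < ε → ∃ C : ℝ, 1 ≤ C ∧ ∀ d k : ℕ, 1 ≤ k →
      (k : ℝ) ^ ε ≤ d → C * d ≤ k →
      (1 / 2) * (d * Real.log (k / d)) ≤ Real.log (RamseyVC d k) ∧
      Real.log (RamseyVC d k) ≤ C * (d * Real.log (k / d))) := by
  simp only [ramseyVC_eq]
  exact ⟨Pool.Agent.Y422.RC.vc_sharp, Pool.Agent.Y422.RC.vc_limit, Pool.Agent.Y422.RC.vc_order⟩

end Pool.Agent.Results.MP_28724c_co.VCDimensionAsymptotics
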